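import Pool.Agent.Q215.WR.Stm

/-! # Project WR: `S_iso` -/

set_option autoImplicit false

open Set Topology Filter

namespace Pool.Agent.Q266.WR

open Pool.Agent.Q215.WR

section ext
variable {X Y : Set ℝ} (φ : X ≃o Y)

/-- the extension by suprema -/
noncomputable def ex (x : ℝ) : ℝ := sSup ((fun g : X => ((φ g : Y) : ℝ)) '' {g | (g : ℝ) ≤ x})

theorem ex_bdd (hX : Dense X) (x : ℝ) :
    BddAbove ((fun g : X => ((φ g : Y) : ℝ)) '' {g | (g : ℝ) ≤ x}) := by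
  obtain ⟨h, hh, h1, h2⟩ := hX.exists_between (show x < x + 1 by linarith)
  refine ⟨((φ ⟨h, hh⟩ : Y) : ℝ), ?_⟩
  rintro _ ⟨g, hg, rfl⟩
  have : g ≤ (⟨h, hh⟩ : X) := by
    show (g : ℝ) ≤ h
    exact le_trans hg h1.le
  exact φ.monotone this

theorem ex_ne (hX : Dense X) (x : ℝ) :
    ((fun g : X => ((φ g : Y) : ℝ)) '' {g | (g : ℝ) ≤ x}).Nonempty := by
  obtain ⟨h, hh, h1, h2⟩ := hX.exists_between (show x - 1 < x by linarith)
  exact ⟨_, ⟨⟨h, hh⟩, h2.le, rfl⟩⟩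

theorem le_ex (hX : Dense X) {x : ℝ} (g : X) (hg : (g : ℝ) ≤ x) : ((φ g : Y) : ℝ) ≤ ex φ x :=
  le_csSup (ex_bdd φ hX x) ⟨g, hg, rfl⟩

theorem ex_le (hX : Dense X) {x : ℝ} (g : X) (hg : x ≤ (g : ℝ)) : ex φ x ≤ ((φ g : Y) : ℝ) := by
  refine csSup_le (ex_ne φ hX x) ?_
  rintro _ ⟨g', hg', rfl⟩
  have : g' ≤ g := by
    show (g' : ℝ) ≤ (g : ℝ)
    exact le_trans (show (g' : ℝ) ≤ x from hg') hg
  exact φ.monotone this

theorem ex_eq (hX : Dense X) (g : X) : ex φ (g : ℝ) = ((φ g : Y) : ℝ) :=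
  le_antisymm (ex_le φ hX g le_rfl) (le_ex φ hX g le_rfl)

theorem ex_strictMono (hX : Dense X) : StrictMono (ex φ) := by
  intro x y hxy
  obtain ⟨g, hg, h1, h2⟩ := hX.exists_between hxy
  obtain ⟨h, hh, h3, h4⟩ := hX.exists_between h2
  have e1 := ex_le φ hX ⟨g, hg⟩ h1.le
  have e2 := le_ex φ hX ⟨h, hh⟩ h4.le
  have e3 : φ ⟨g, hg⟩ < φ ⟨h, hh⟩ := φ.strictMono (show (⟨g, hg⟩ : X) < ⟨h, hh⟩ from h3)
  exact lt_of_le_of_lt e1 (lt_of_lt_of_le e3 e2)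

theorem ex_surj (hX : Dense X) (hY : Dense Y) : Function.Surjective (ex φ) := by
  intro w
  set T : Set ℝ := {x : ℝ | ∃ g : X, (g : ℝ) = x ∧ ((φ g : Y) : ℝ) ≤ w} with hT
  have hne : T.Nonempty := by
    obtain ⟨h, hh, h1, h2⟩ := hY.exists_between (show w - 1 < w by linarith)
    refine ⟨_, φ.symm ⟨h, hh⟩, rfl, ?_⟩
    rw [OrderIso.apply_symm_apply]
    exact h2.le
  have hlt : ∀ g : X, w < ((φ g : Y) : ℝ) → ∀ x ∈ T, x ≤ g := by
    rintro g hg _ ⟨g', rfl, hg'⟩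
    have h1 : φ g' < φ g := by
      show ((φ g' : Y) : ℝ) < ((φ g : Y) : ℝ)
      exact lt_of_le_of_lt hg' hg
    have h2 : g' < g := by
      simpa using h1
    exact le_of_lt h2
  have hbdd : BddAbove T := by
    obtain ⟨h, hh, h1, h2⟩ := hY.exists_between (show w < w + 1 by linarith)
    refine ⟨((φ.symm ⟨h, hh⟩ : X) : ℝ), fun x hx => hlt _ ?_ x hx⟩
    rw [OrderIso.apply_symm_apply]
    exact h1
  refine ⟨sSup T, le_antisymm ?_ ?_⟩
  · by_contra hcon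
    push Not at hcon
    obtain ⟨y, hy, h1, h2⟩ := hY.exists_between hcon
    have h3 : w < ((φ (φ.symm ⟨y, hy⟩) : Y) : ℝ) := by
      rw [OrderIso.apply_symm_apply]; exact h1
    have h4 := ex_le φ hX (φ.symm ⟨y, hy⟩) (csSup_le hne (hlt _ h3))
    rw [OrderIso.apply_symm_apply] at h4
    exact absurd h2 (not_lt.2 h4)
  · by_contra hcon
    push Not at hcon
    obtain ⟨y, hy, h1, h2⟩ := hY.exists_between hcon
    have h4 := le_ex φ hX (x := sSup T) (φ.symm ⟨y, hy⟩) (le_csSup hbdd ⟨_, rfl, by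
      rw [OrderIso.apply_symm_apply]; exact h2.le⟩)
    rw [OrderIso.apply_symm_apply] at h4
    exact absurd h1 (not_lt.2 h4)

end ext

theorem t_iso : S_iso := by
  intro hbf S N D F S' N' D' F' hG hG'
  obtain ⟨φ, hlev, hbet⟩ := hbf S N D F S' N' D' F' hG hG'
  have hX : Dense (N ∪ D) := hG.denseD.mono subset_union_right
  have hY : Dense (N' ∪ D') := hG'.denseD.mono subset_union_right
  set Φ : ℝ ≃o ℝ := StrictMono.orderIsoOfSurjective (ex φ) (ex_strictMono φ hX)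
    (ex_surj φ hX hY) with hΦ
  have hΦa : ∀ x, Φ x = ex φ x := fun x => rfl
  have hΦg : ∀ g : ↥(N ∪ D), Φ (g : ℝ) = ((φ g : ↥(N' ∪ D')) : ℝ) := fun g => ex_eq φ hX g
  -- levels of all points
  have hF : ∀ n x, x ∈ F n ↔ Φ x ∈ F' n := by
    intro n x
    constructor
    · intro hx
      by_contra hcon
      have hop : IsOpen (F' n)ᶜ := (hG'.closed n).isOpen_compl
      obtain ⟨ε, hε, hball⟩ := Metric.isOpen_iff.1 hop (Φ x) hcon
      obtain ⟨g', hg', h1, h2⟩ := hY.exists_between (show Φ x - ε < Φ x by linarith)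
      obtain ⟨h', hh', h3, h4⟩ := hY.exists_between (show Φ x < Φ x + ε by linarith)
      set g := φ.symm ⟨g', hg'⟩ with hg
      set h := φ.symm ⟨h', hh'⟩ with hh
      have eg : ((φ g : ↥(N' ∪ D')) : ℝ) = g' := by rw [hg, OrderIso.apply_symm_apply]
      have eh : ((φ h : ↥(N' ∪ D')) : ℝ) = h' := by rw [hh, OrderIso.apply_symm_apply]
      have hgx : (g : ℝ) < x := by
        rw [← Φ.lt_iff_lt, hΦg, eg]; exact h2
      have hxh : x < (h : ℝ) := by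
        rw [← Φ.lt_iff_lt, hΦg, eh]; exact h3
      obtain ⟨z, hz, hz1, hz2⟩ :=
        (hbet g h (show (g : ℝ) < (h : ℝ) from hgx.trans hxh) n).1 ⟨x, hx, hgx, hxh⟩
      rw [eg] at hz1
      rw [eh] at hz2
      refine hball ?_ hz
      rw [Metric.mem_ball, Real.dist_eq, abs_lt]
      constructor <;> linarith
    · intro hx
      by_contra hcon
      have hop : IsOpen (F n)ᶜ := (hG.closed n).isOpen_compl
      obtain ⟨ε, hε, hball⟩ := Metric.isOpen_iff.1 hop x hcon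
      obtain ⟨g, hg, h1, h2⟩ := hX.exists_between (show x - ε < x by linarith)
      obtain ⟨h, hh, h3, h4⟩ := hX.exists_between (show x < x + ε by linarith)
      have e1 : ((φ ⟨g, hg⟩ : ↥(N' ∪ D')) : ℝ) < Φ x := by
        rw [← hΦg ⟨g, hg⟩]; exact Φ.strictMono h2
      have e2 : Φ x < ((φ ⟨h, hh⟩ : ↥(N' ∪ D')) : ℝ) := by
        rw [← hΦg ⟨h, hh⟩]; exact Φ.strictMono h3
      obtain ⟨z, hz, hz1, hz2⟩ :=
        (hbet ⟨g, hg⟩ ⟨h, hh⟩ (show g < h from h2.trans h3) n).2 ⟨Φ x, hx, e1, e2⟩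
      have hz1' : g < z := hz1
      have hz2' : z < h := hz2
      refine hball ?_ hz
      rw [Metric.mem_ball, Real.dist_eq, abs_lt]
      constructor <;> linarith
  have hS : ∀ x, x ∈ S ↔ Φ x ∈ S' := by
    intro x
    rw [← hG.union, ← hG'.union, mem_iUnion, mem_iUnion]
    exact exists_congr fun n => hF n x
  have hXY : ∀ x, x ∈ N ∪ D ↔ Φ x ∈ N' ∪ D' := by
    intro x
    constructor
    · intro hx
      rw [hΦg ⟨x, hx⟩]
      exact (φ ⟨x, hx⟩).2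
    · intro hx
      have h1 : Φ ((φ.symm ⟨Φ x, hx⟩ : ↥(N ∪ D)) : ℝ) = Φ x := by
        rw [hΦg, OrderIso.apply_symm_apply]
      have h2 := Φ.injective h1
      rw [← h2]
      exact (φ.symm ⟨Φ x, hx⟩).2
  have hN : ∀ x, x ∈ N ↔ x ∈ N ∪ D ∧ x ∈ S := fun x =>
    ⟨fun h => ⟨Or.inl h, hG.subN h⟩, fun h => h.1.resolve_right fun hd => hG.disjD x hd h.2⟩
  have hN' : ∀ x, x ∈ N' ↔ x ∈ N' ∪ D' ∧ x ∈ S' := fun x =>
    ⟨fun h => ⟨Or.inl h, hG'.subN h⟩, fun h => h.1.resolve_right fun hd => hG'.disjD x hd h.2⟩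
  have hD : ∀ x, x ∈ D ↔ x ∈ N ∪ D ∧ x ∉ S := fun x =>
    ⟨fun h => ⟨Or.inr h, hG.disjD x h⟩, fun h => h.1.resolve_left fun hn => h.2 (hG.subN hn)⟩
  have hD' : ∀ x, x ∈ D' ↔ x ∈ N' ∪ D' ∧ x ∉ S' := fun x =>
    ⟨fun h => ⟨Or.inr h, hG'.disjD x h⟩, fun h => h.1.resolve_left fun hn => h.2 (hG'.subN hn)⟩
  refine ⟨Φ, hS, fun x => ?_, fun x => ?_⟩
  · rw [hN x, hN' (Φ x), hXY x, hS x]
  · rw [hD x, hD' (Φ x), hXY x, hS x]

end Pool.Agent.Q266.WR
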