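import Pool.Agent.Q215.WR.Stm

/-! # Project WR: `S_basic` -/

set_option autoImplicit false

open Set Topology Filter

namespace Pool.Agent.Q266.WR

open Pool.Agent.Q215.WR

theorem const_of_avoid {P : Set ℝ} (hP : ∀ a b : ℝ, a < b → ∃ c ∈ P, a < c ∧ c < b) {f : ℝ → ℝ}
    (hf : Continuous f) {x y : ℝ} (hxy : x < y) (h : ∀ z ∈ Ioo x y, f z ∉ P) :
    ∀ z ∈ Icc x y, f z = f ((x + y) / 2) := by
  have hm : (x + y) / 2 ∈ Ioo x y := ⟨by linarith, by linarith⟩
  have key : ∀ a ∈ Ioo x y, ∀ b ∈ Ioo x y, f a < f b → False := by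
    intro a ha b hb hab
    obtain ⟨c, hc, h1, h2⟩ := hP _ _ hab
    have himg : Ioo (f a) (f b) ⊆ f '' (Ioo x y) := by
      have hpre : IsPreconnected (f '' (Ioo x y)) := isPreconnected_Ioo.image _ hf.continuousOn
      intro w hw
      exact hpre.ordConnected.out (mem_image_of_mem _ ha) (mem_image_of_mem _ hb) ⟨hw.1.le, hw.2.le⟩
    obtain ⟨z, hz, rfl⟩ := himg ⟨h1, h2⟩
    exact h z hz hc
  have heq : ∀ a ∈ Ioo x y, f a = f ((x + y) / 2) := by
    intro a ha
    rcases lt_trichotomy (f a) (f ((x + y) / 2)) with h1 | h1 | h1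
    · exact (key _ ha _ hm h1).elim
    · exact h1
    · exact (key _ hm _ ha h1).elim
  have hcl : EqOn f (fun _ => f ((x + y) / 2)) (closure (Ioo x y)) :=
    Set.EqOn.closure (fun a ha => heq a ha) hf continuous_const
  intro z hz
  exact hcl (by rw [closure_Ioo hxy.ne]; exact hz)

theorem pi_of_red {A : Set ℝ} (hA : Red A QQ) : PI A := by
  obtain ⟨f, hf, rfl⟩ := hA
  intro x y hxy
  have hm : (x + y) / 2 ∈ Ioo x y := ⟨by linarith, by linarith⟩
  constructor
  · intro h z hz
    have hirr : ∀ a b : ℝ, a < b → ∃ c ∈ QQᶜ, a < c ∧ c < b := by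
      intro a b hab
      obtain ⟨r, hr, h1, h2⟩ := exists_irrational_btwn hab
      exact ⟨r, hr, h1, h2⟩
    have := const_of_avoid hirr hf hxy (fun z hz hc => hc (h hz)) z hz
    show f z ∈ QQ
    rw [this]
    exact h hm
  · intro h z hz
    have hrat : ∀ a b : ℝ, a < b → ∃ c ∈ QQ, a < c ∧ c < b := by
      intro a b hab
      obtain ⟨q, h1, h2⟩ := exists_rat_btwn hab
      exact ⟨q, ⟨q, rfl⟩, h1, h2⟩
    have := const_of_avoid hrat hf hxy (fun z hz hc => h hz hc) z hz
    show ¬ f z ∈ QQ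
    rw [this]
    exact h hm

theorem side {A : Set ℝ} (hPI : PI A) {x y : ℝ} (hxy : x < y)
    (h : ∀ z ∈ Ioo x y, z ∉ frontier A) : Icc x y ⊆ A ∨ Icc x y ⊆ Aᶜ := by
  have h1 : Ioo x y ⊆ interior A ∪ interior Aᶜ := by
    intro z hz
    have hz' := h z hz
    rw [frontier, Set.mem_sdiff, not_and, not_not] at hz'
    by_cases hc : z ∈ closure A
    · exact Or.inl (hz' hc)
    · right
      rw [interior_compl]
      exact hc
  have hd : Disjoint (interior A) (interior Aᶜ) :=
    Set.disjoint_left.2 fun z hz hz' => interior_subset hz' (interior_subset hz)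
  rcases IsPreconnected.subset_or_subset isOpen_interior isOpen_interior hd h1
    isPreconnected_Ioo with h2 | h2
  · exact Or.inl ((hPI x y hxy).1 (h2.trans interior_subset))
  · exact Or.inr ((hPI x y hxy).2 (h2.trans interior_subset))

theorem t_basic : S_basic := by
  intro A hA
  have hPI := pi_of_red hA
  refine ⟨hPI, ?_, ?_⟩
  · obtain ⟨f, hf, rfl⟩ := hA
    obtain ⟨e, he⟩ : ∃ e : ℕ → ℚ, Function.Surjective e := exists_surjective_nat ℚ
    refine ⟨fun n => f ⁻¹' {((e n : ℚ) : ℝ)}, fun n => isClosed_singleton.preimage hf, ?_⟩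
    ext z
    simp only [mem_iUnion, mem_preimage, mem_singleton_iff, QQ, mem_range]
    constructor
    · rintro ⟨n, hn⟩
      exact ⟨e n, hn.symm⟩
    · rintro ⟨q, hq⟩
      obtain ⟨n, rfl⟩ := he q
      exact ⟨n, hq.symm⟩
  · intro x hx ε hε
    by_contra hcon
    push Not at hcon
    have hl : Icc (x - ε) x ⊆ A ∨ Icc (x - ε) x ⊆ Aᶜ := by
      refine side hPI (by linarith) fun z hz hzf => ?_
      have := hcon z hzf hz.2.ne
      rw [abs_of_neg (by linarith [hz.2])] at this
      linarith [hz.1]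
    have hr : Icc x (x + ε) ⊆ A ∨ Icc x (x + ε) ⊆ Aᶜ := by
      refine side hPI (by linarith) fun z hz hzf => ?_
      have := hcon z hzf hz.1.ne'
      rw [abs_of_pos (by linarith [hz.1])] at this
      linarith [hz.2]
    have hxl : x ∈ Icc (x - ε) x := ⟨by linarith, le_rfl⟩
    have hxr : x ∈ Icc x (x + ε) := ⟨le_rfl, by linarith⟩
    have hnb : ∀ B : Set ℝ, Icc (x - ε) x ⊆ B → Icc x (x + ε) ⊆ B → x ∈ interior B := by
      intro B h1 h2
      rw [mem_interior]
      refine ⟨Ioo (x - ε) (x + ε), fun z hz => ?_, isOpen_Ioo, by constructor <;> linarith⟩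
      rcases le_total z x with h | h
      · exact h1 ⟨hz.1.le, h⟩
      · exact h2 ⟨h, hz.2.le⟩
    rcases hl with hl | hl <;> rcases hr with hr | hr
    · exact hx.2 (hnb _ hl hr)
    · exact hr hxr (hl hxl)
    · exact hl hxl (hr hxr)
    · have := hnb _ hl hr
      rw [interior_compl] at this
      exact this hx.1

end Pool.Agent.Q266.WR
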